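import Mathlib

/-!
# The monoid of strictly increasing maps of `ℕ` has no finest Polish semigroup topology

Outline.  For `0 < t ≤ 1/2` let `w_t (n) = (n + 1) ^ (-t)` and `μ_t f = ∑_{n ∉ range f} w_t (n)`.
The pointwise topology refined by the condition that `μ_t` is continuous, with the value `∞`
isolated, is a Polish semigroup topology `T_t`: it is Polish since the graph of `μ_t` is a `G_δ`
set, and multiplication is continuous since `μ_t (f g) = μ_t f + ∑_{a ∉ range g} w_t (f a)`, where
`w_t (f a) ≤ w_t a`, and `w_t (f a) ≥ c w_t a` if `μ_t f < ∞`.  The set `P_t = {μ_t = ∞}` is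
`T_t`-open.  If `x_t` omits exactly the numbers `2 ⌊k ^ (1/t)⌋`, then `x_t ∈ P_s` if and only if
`s ≤ t`.  A topology finer than all `T_t` has all the `P_t` among its open sets, so it has no
countable base.
-/

set_option autoImplicit false

open Set Filter Topology

namespace Pool.Agent.Results.MP_0c7c8f_al.NoFinestTopology

/-- the set of endomorphisms of `(ℕ, <)`: the strictly increasing maps `ℕ → ℕ` -/
def EndN : Type := {f : ℕ → ℕ // ∀ x y : ℕ, x < y → f x < f y}

/-- the monoid `End(ℕ, <)`: multiplication is composition of maps -/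
instance : Monoid EndN where
  mul f g := ⟨fun n => f.1 (g.1 n), fun _ _ h => f.2 _ _ (g.2 _ _ h)⟩
  one := ⟨fun n => n, fun _ _ h => h⟩
  mul_assoc _ _ _ := rfl
  one_mul _ := rfl
  mul_one _ := rfl

/-- `τ` is a Polish semigroup topology on `End(ℕ, <)` -/
def IsPolishSemigroupTopology (τ : TopologicalSpace EndN) : Prop :=
  @PolishSpace EndN τ ∧
    @Continuous (EndN × EndN) EndN (@instTopologicalSpaceProd EndN EndN τ τ) τ
      (fun p => p.1 * p.2)

theorem mul_val (f g : EndN) (n : ℕ) : (f * g).1 n = f.1 (g.1 n) := rfl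

theorem sm (f : EndN) : StrictMono f.1 := fun _ _ h => f.2 _ _ h

/-- the pointwise topology -/
instance τ0 : TopologicalSpace EndN := TopologicalSpace.induced (fun f => f.1) inferInstance

theorem polish_Gδ {X : Type*} [TopologicalSpace X] [PolishSpace X] (D : Set X) (hD : IsClosed D)
    (U : ℕ → Set X) (hU : ∀ n, IsOpen (U n)) : PolishSpace {x : X // x ∈ D ∧ ∀ n, x ∈ U n} := by
  have : ∀ n, PolishSpace (U n) := fun n => (hU n).polishSpace
  let φ : {x : X // x ∈ D ∧ ∀ n, x ∈ U n} → (∀ n, U n) := fun x n => ⟨x.1, x.2.2 n⟩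
  have hφc : Continuous φ :=
    continuous_pi fun n => Continuous.subtype_mk continuous_subtype_val _
  have hemb : IsClosedEmbedding φ := by
    refine ⟨⟨⟨?_⟩, ?_⟩, ?_⟩
    · apply le_antisymm
      · exact continuous_iff_le_induced.1 hφc
      · intro s hs
        obtain ⟨V, hV, rfl⟩ := isOpen_induced_iff.1 hs
        refine isOpen_induced_iff.2 ⟨(fun z : ∀ n, U n => (z 0).1) ⁻¹' V, ?_, ?_⟩
        · exact hV.preimage (continuous_subtype_val.comp (continuous_apply 0))
        · rfl
    · intro x y h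
      have h0 : (φ x 0).1 = (φ y 0).1 := by rw [h]
      exact Subtype.ext h0
    · have : range φ = {z : ∀ n, U n | (z 0).1 ∈ D} ∩ ⋂ n, {z : ∀ n, U n | (z n).1 = (z 0).1} := by
        ext z
        simp only [mem_range, mem_inter_iff, mem_iInter, mem_ofPred_eq]
        constructor
        · rintro ⟨x, rfl⟩; exact ⟨x.2.1, fun n => rfl⟩
        · rintro ⟨hz, h⟩
          refine ⟨⟨(z 0).1, hz, fun n => ?_⟩, ?_⟩
          · rw [← h n]; exact (z n).2
          · funext n; exact Subtype.ext (h n).symm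
      rw [this]
      exact (hD.preimage (continuous_subtype_val.comp (continuous_apply 0))).inter
        (isClosed_iInter fun n => isClosed_eq
        (continuous_subtype_val.comp (continuous_apply n))
        (continuous_subtype_val.comp (continuous_apply 0)))
  exact hemb.polishSpace

theorem polish0 : PolishSpace EndN := by
  have h : IsClosedEmbedding (fun f : EndN => f.1) := by
    refine ⟨⟨⟨rfl⟩, fun _ _ h => Subtype.ext h⟩, ?_⟩
    have : range (fun f : EndN => f.1) = ⋂ x : ℕ, ⋂ y : ℕ, ⋂ _ : x < y,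
        {f : ℕ → ℕ | f x < f y} := by
      ext f
      simp only [mem_range, mem_iInter, mem_ofPred_eq]
      constructor
      · rintro ⟨g, rfl⟩ x y h; exact g.2 x y h
      · intro h; exact ⟨⟨f, h⟩, rfl⟩
    rw [this]
    refine isClosed_iInter fun x => isClosed_iInter fun y => isClosed_iInter fun _ => ?_
    have : {f : ℕ → ℕ | f x < f y} = (fun f : ℕ → ℕ => (f x, f y)) ⁻¹' {p | p.1 < p.2} := rfl
    rw [this]
    exact (isClosed_discrete _).preimage (by fun_prop)
  exact h.polishSpace

theorem cont_val (n : ℕ) : Continuous (fun f : EndN => f.1 n) :=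
  (continuous_apply n).comp continuous_induced_dom

theorem cont_mul0 : Continuous (fun p : EndN × EndN => p.1 * p.2) := by
  refine continuous_induced_rng.2 (continuous_pi fun n => ?_)
  refine continuous_discrete_rng.2 fun m => ?_
  have : (fun p : EndN × EndN => ((fun f : EndN => f.1) ∘ fun p : EndN × EndN => p.1 * p.2) p n)
      ⁻¹' {m} = ⋃ k : ℕ, {p : EndN × EndN | p.2.1 n = k} ∩ {p : EndN × EndN | p.1.1 k = m} := by
    ext p
    simp [mul_val]
  rw [this]
  refine isOpen_iUnion fun k => IsOpen.inter ?_ ?_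
  · exact (isOpen_discrete {k}).preimage ((cont_val n).comp continuous_snd)
  · exact (isOpen_discrete {m}).preimage ((cont_val k).comp continuous_fst)

/-! ### the topology given by a weight -/

section Weight

variable (w : ℕ → NNReal)

open Classical in
/-- the weight of `n` if `n` is omitted by `f`, and `0` otherwise -/
noncomputable def e (f : EndN) (n : ℕ) : NNReal := if n ∈ range f.1 then 0 else w n

/-- the total weight of the numbers omitted by `f` -/
noncomputable def μ (f : EndN) : ENNReal := ∑' n, (e w f n : ENNReal)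

open Classical in
/-- `μ` as a real function, with value `-1` in place of `∞` -/
noncomputable def v (f : EndN) : ℝ := if μ w f = ⊤ then -1 else (μ w f).toReal

/-- partial sums of `μ` -/
noncomputable def pr (N : ℕ) (f : EndN) : ℝ := ∑ n ∈ Finset.range N, (e w f n : ℝ)

/-- the topology given by the weight `w` -/
@[reducible] noncomputable def T : TopologicalSpace EndN :=
  τ0 ⊓ TopologicalSpace.induced (v w) inferInstance

variable {w}

theorem v_top {f : EndN} (h : μ w f = ⊤) : v w f = -1 := by simp [v, h]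

theorem v_fin {f : EndN} (h : μ w f ≠ ⊤) : v w f = (μ w f).toReal := by simp [v, h]

theorem v_nonneg {f : EndN} (h : μ w f ≠ ⊤) : 0 ≤ v w f := by
  rw [v_fin h]; exact ENNReal.toReal_nonneg

theorem hasSum_fin {f : EndN} (h : μ w f ≠ ⊤) : HasSum (fun n => (e w f n : ℝ)) (v w f) := by
  rw [v_fin h]
  have h1 : Summable (e w f) := ENNReal.tsum_coe_ne_top_iff_summable.1 h
  have h2 : μ w f = ((∑' n, e w f n : NNReal) : ENNReal) := (ENNReal.coe_tsum h1).symm
  rw [h2, ENNReal.coe_toReal]
  exact NNReal.hasSum_coe.2 h1.hasSum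

theorem pr_le {f : EndN} (h : μ w f ≠ ⊤) (N : ℕ) : pr w N f ≤ v w f :=
  sum_le_hasSum _ (fun _ _ => NNReal.coe_nonneg _) (hasSum_fin h)

theorem pr_tendsto {f : EndN} (h : μ w f ≠ ⊤) :
    Tendsto (fun N => pr w N f) atTop (𝓝 (v w f)) :=
  (hasSum_fin h).tendsto_sum_nat

theorem pr_top {f : EndN} (h : μ w f = ⊤) : Tendsto (fun N => pr w N f) atTop atTop := by
  refine (not_summable_iff_tendsto_nat_atTop_of_nonneg (fun _ => NNReal.coe_nonneg _)).1 ?_
  intro hs
  have h1 : Summable (e w f) := NNReal.summable_coe.1 hs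
  exact ENNReal.tsum_coe_ne_top_iff_summable.2 h1 h

theorem fin_of_le {f : EndN} {y : ℝ} (h : ∀ N, pr w N f ≤ y) : μ w f ≠ ⊤ := by
  intro ht
  obtain ⟨N, hN⟩ := ((pr_top ht).eventually (eventually_gt_atTop y)).exists
  exact absurd (h N) (not_le.2 hN)

theorem e_congr {f g : EndN} {n : ℕ} (h : ∀ a ≤ n, f.1 a = g.1 a) : e w f n = e w g n := by
  have key : ∀ f g : EndN, (∀ a ≤ n, f.1 a = g.1 a) → n ∈ range f.1 → n ∈ range g.1 := by
    rintro f g h ⟨a, ha⟩
    have hle : a ≤ n := by rw [← ha]; exact (sm f).le_apply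
    exact ⟨a, by rw [← h a hle, ha]⟩
  have : n ∈ range f.1 ↔ n ∈ range g.1 := ⟨key f g h, key g f fun a ha => (h a ha).symm⟩
  by_cases h1 : n ∈ range f.1
  · rw [e, e, if_pos h1, if_pos (this.1 h1)]
  · rw [e, e, if_neg h1, if_neg (fun h2 => h1 (this.2 h2))]

theorem pr_congr {f g : EndN} {N : ℕ} (h : ∀ a < N, f.1 a = g.1 a) : pr w N f = pr w N g := by
  refine Finset.sum_congr rfl fun n hn => ?_
  rw [e_congr fun a ha => h a (lt_of_le_of_lt ha (Finset.mem_range.1 hn))]

/-- agreement on an initial segment is an open condition -/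
theorem agree_open (f : EndN) (N : ℕ) : IsOpen {g : EndN | ∀ a < N, g.1 a = f.1 a} := by
  have : {g : EndN | ∀ a < N, g.1 a = f.1 a} = ⋂ a ∈ Finset.range N, {g : EndN | g.1 a = f.1 a} := by
    ext g; simp
  rw [this]
  exact isOpen_biInter_finset fun a _ => (isOpen_discrete {f.1 a}).preimage (cont_val a)

theorem cont_pr (N : ℕ) : Continuous (pr w N) := by
  refine continuous_iff_continuousAt.2 fun f => ?_
  have h : ∀ᶠ g in 𝓝 f, pr w N g = pr w N f := by
    filter_upwards [(agree_open f N).mem_nhds fun _ _ => rfl] with g hg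
    exact pr_congr hg
  exact tendsto_nhds_of_eventually_eq h

variable (w) in
/-- the closed part of the graph condition -/
def DD : Set (EndN × ℝ) := {p | (p.2 = -1 ∨ 0 ≤ p.2) ∧ ∀ N, p.2 ≤ -1 / 2 ∨ pr w N p.1 ≤ p.2}

variable (w) in
/-- the open parts of the graph condition -/
def UU (k : ℕ) : Set (EndN × ℝ) :=
  {p | (p.2 < -1 / 2 ∧ ∃ N, (k : ℝ) < pr w N p.1) ∨
    (-1 / 2 < p.2 ∧ ∃ N, p.2 - 1 / (k + 1) < pr w N p.1)}

theorem isClosed_DD : IsClosed (DD w) := by
  have : DD w = ({p : EndN × ℝ | p.2 = -1} ∪ {p | 0 ≤ p.2}) ∩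
      ⋂ N, ({p : EndN × ℝ | p.2 ≤ -1 / 2} ∪ {p | pr w N p.1 ≤ p.2}) := by
    ext p; simp [DD]
  rw [this]
  refine ((isClosed_eq continuous_snd continuous_const).union
    (isClosed_le continuous_const continuous_snd)).inter (isClosed_iInter fun N => ?_)
  exact (isClosed_le continuous_snd continuous_const).union
    (isClosed_le ((cont_pr N).comp continuous_fst) continuous_snd)

theorem isOpen_UU (k : ℕ) : IsOpen (UU w k) := by
  have : UU w k = ({p : EndN × ℝ | p.2 < -1 / 2} ∩ ⋃ N, {p | (k : ℝ) < pr w N p.1}) ∪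
      ({p : EndN × ℝ | -1 / 2 < p.2} ∩ ⋃ N, {p | p.2 - 1 / (k + 1) < pr w N p.1}) := by
    ext p; simp [UU]
  rw [this]
  refine IsOpen.union (IsOpen.inter (isOpen_lt continuous_snd continuous_const) ?_)
    (IsOpen.inter (isOpen_lt continuous_const continuous_snd) ?_)
  · exact isOpen_iUnion fun N => isOpen_lt continuous_const ((cont_pr N).comp continuous_fst)
  · exact isOpen_iUnion fun N => isOpen_lt (continuous_snd.sub continuous_const)
      ((cont_pr N).comp continuous_fst)

theorem graph_iff (f : EndN) (y : ℝ) :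
    ((f, y) ∈ DD w ∧ ∀ k, (f, y) ∈ UU w k) ↔ y = v w f := by
  constructor
  · rintro ⟨⟨hy | hy, hD⟩, hU⟩
    · dsimp only at hy
      have htop : μ w f = ⊤ := by
        by_contra hne
        obtain ⟨k, hk⟩ := exists_nat_gt (v w f)
        rcases hU k with ⟨_, N, hN⟩ | ⟨h1, _⟩
        · have := pr_le hne N
          dsimp only at hN
          linarith
        · dsimp only at h1; linarith
      rw [v_top htop]; exact hy
    · dsimp only at hy hD
      have hle : ∀ N, pr w N f ≤ y := fun N => by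
        rcases hD N with h | h
        · linarith
        · exact h
      have hfin := fin_of_le hle
      apply le_antisymm
      · refine le_of_forall_pos_le_add fun ε hε => ?_
        obtain ⟨k, hk⟩ := exists_nat_one_div_lt hε
        rcases hU k with ⟨h1, _⟩ | ⟨_, N, hN⟩
        · dsimp only at h1; linarith
        · dsimp only at hN
          have := pr_le hfin N
          linarith
      · exact le_of_tendsto' (pr_tendsto hfin) hle
  · rintro rfl
    by_cases h : μ w f = ⊤
    · refine ⟨⟨Or.inl (v_top h), fun N => Or.inl ?_⟩, fun k => Or.inl ⟨?_, ?_⟩⟩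
      · rw [v_top h]; norm_num
      · rw [v_top h]; norm_num
      · exact ((pr_top h).eventually (eventually_gt_atTop _)).exists
    · refine ⟨⟨Or.inr (v_nonneg h), fun N => Or.inr (pr_le h N)⟩, fun k => Or.inr ⟨?_, ?_⟩⟩
      · have := v_nonneg h
        dsimp only; linarith
      · have h1 : v w f - 1 / ((k : ℝ) + 1) < v w f := by
          have : (0 : ℝ) < 1 / ((k : ℝ) + 1) := by positivity
          linarith
        exact ((pr_tendsto h).eventually (eventually_gt_nhds h1)).exists

theorem polish_T : @PolishSpace EndN (T w) := by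
  have : PolishSpace EndN := polish0
  have hP := polish_Gδ (DD w) isClosed_DD (UU w) isOpen_UU
  let E : EndN ≃ {x : EndN × ℝ // x ∈ DD w ∧ ∀ k, x ∈ UU w k} :=
    { toFun := fun f => ⟨(f, v w f), (graph_iff f _).2 rfl⟩
      invFun := fun x => x.1.1
      left_inv := fun f => rfl
      right_inv := fun x => by
        obtain ⟨⟨f, y⟩, h⟩ := x
        have := (graph_iff f y).1 h
        subst this
        rfl }
  have hT : T w = TopologicalSpace.induced E inferInstance := by
    have h1 : (inferInstance : TopologicalSpace {x : EndN × ℝ // x ∈ DD w ∧ ∀ k, x ∈ UU w k}) =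
      TopologicalSpace.induced Subtype.val inferInstance := rfl
    rw [h1, induced_compose]
    have h2 : (instTopologicalSpaceProd : TopologicalSpace (EndN × ℝ)) =
      TopologicalSpace.induced Prod.fst τ0 ⊓ TopologicalSpace.induced Prod.snd inferInstance := rfl
    change T w = TopologicalSpace.induced (Subtype.val ∘ E) instTopologicalSpaceProd
    rw [h2, induced_inf, induced_compose, induced_compose]
    have h3 : (Prod.fst ∘ Subtype.val ∘ E) = id := rfl
    have h4 : (Prod.snd ∘ Subtype.val ∘ E) = v w := rfl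
    rw [h3, h4, induced_id]
  rw [hT]
  exact E.polishSpace_induced

/-! ### multiplication -/

open Classical in
/-- the contribution of the number `a` omitted by `g` to the weight of `f * g` -/
noncomputable def d (w : ℕ → NNReal) (f g : EndN) (a : ℕ) : NNReal :=
  if a ∈ range g.1 then 0 else w (f.1 a)

theorem μ_mul (f g : EndN) : μ w (f * g) = μ w f + ∑' a, (d w f g a : ENNReal) := by
  classical
  let i : ℕ → ENNReal := fun n => if n ∈ range f.1 ∧ n ∉ range (f * g).1 then (w n : ENNReal) else 0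
  have h1 : ∀ n, (e w (f * g) n : ENNReal) = (e w f n : ENNReal) + i n := by
    intro n
    by_cases h : n ∈ range f.1
    · by_cases h' : n ∈ range (f * g).1
      · have h1 : i n = 0 := if_neg fun h2 => h2.2 h'
        rw [e, e, if_pos h, if_pos h', h1, add_zero]
      · have h1 : i n = w n := if_pos ⟨h, h'⟩
        rw [e, e, if_pos h, if_neg h', h1, ENNReal.coe_zero, zero_add]
    · have h' : n ∉ range (f * g).1 := by
        rintro ⟨a, ha⟩
        exact h ⟨g.1 a, ha⟩
      have h1 : i n = 0 := if_neg fun h2 => h h2.1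
      rw [e, e, if_neg h, if_neg h', h1, add_zero]
  have h2 : ∑' n, i n = ∑' a, i (f.1 a) := by
    symm
    apply (sm f).injective.tsum_eq
    intro n hn
    by_contra hc
    apply hn
    simp only [i]
    rw [if_neg]
    exact fun h => hc h.1
  have h3 : ∀ a, i (f.1 a) = (d w f g a : ENNReal) := by
    intro a
    have h4 : f.1 a ∈ range (f * g).1 ↔ a ∈ range g.1 := by
      constructor
      · rintro ⟨b, hb⟩
        exact ⟨b, (sm f).injective hb⟩
      · rintro ⟨b, rfl⟩
        exact ⟨b, rfl⟩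
    by_cases h : a ∈ range g.1
    · simp only [i, d, h4, h, not_true_eq_false, and_false, if_false, if_true, ENNReal.coe_zero]
    · simp only [i, d, h4, h, not_false_eq_true, and_true, mem_range_self, if_true, if_false]
  unfold μ
  simp_rw [h1]
  rw [ENNReal.tsum_add, h2]
  simp_rw [h3]

theorem d_le (hw : Antitone w) (f g : EndN) (a : ℕ) : d w f g a ≤ e w g a := by
  unfold d e
  split_ifs
  · exact le_rfl
  · exact hw (sm f).le_apply

theorem μ_mul_fin (hw : Antitone w) {f g : EndN} (hf : μ w f ≠ ⊤) (hg : μ w g ≠ ⊤) :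
    μ w (f * g) ≠ ⊤ := by
  rw [μ_mul]
  refine ENNReal.add_ne_top.2 ⟨hf, ne_top_of_le_ne_top hg ?_⟩
  exact ENNReal.tsum_le_tsum fun a => ENNReal.coe_le_coe.2 (d_le hw f g a)

/-- the estimate behind the continuity of multiplication -/
theorem v_mul_bounds (hw : Antitone w) {f g : EndN} (hf : μ w f ≠ ⊤) (hg : μ w g ≠ ⊤) (N : ℕ) :
    v w f + ∑ a ∈ Finset.range N, (d w f g a : ℝ) ≤ v w (f * g) ∧
      v w (f * g) ≤ v w f + ∑ a ∈ Finset.range N, (d w f g a : ℝ) + (v w g - pr w N g) := by
  have hfg := μ_mul_fin hw hf hg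
  have hdfin : ∑' a, (d w f g a : ENNReal) ≠ ⊤ := by
    rw [μ_mul] at hfg
    exact (ENNReal.add_ne_top.1 hfg).2
  have hds : Summable (d w f g) := ENNReal.tsum_coe_ne_top_iff_summable.1 hdfin
  have hds' : Summable (fun a => (d w f g a : ℝ)) := NNReal.summable_coe.2 hds
  have h1 : v w (f * g) = v w f + ∑' a, (d w f g a : ℝ) := by
    rw [v_fin hfg, v_fin hf, μ_mul, ENNReal.toReal_add hf hdfin, ← ENNReal.coe_tsum hds,
      ENNReal.coe_toReal, NNReal.coe_tsum]
  have hes := hasSum_fin hg
  have h2 : ∑ a ∈ Finset.range N, (d w f g a : ℝ) + ∑' a, (d w f g (a + N) : ℝ) =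
      ∑' a, (d w f g a : ℝ) := hds'.sum_add_tsum_nat_add N
  have h3 : ∑ a ∈ Finset.range N, (e w g a : ℝ) + ∑' a, (e w g (a + N) : ℝ) = v w g := by
    rw [hes.summable.sum_add_tsum_nat_add N, hes.tsum_eq]
  have h4 : (0 : ℝ) ≤ ∑' a, (d w f g (a + N) : ℝ) := tsum_nonneg fun _ => NNReal.coe_nonneg _
  have h5 : ∑' a, (d w f g (a + N) : ℝ) ≤ ∑' a, (e w g (a + N) : ℝ) :=
    Summable.tsum_le_tsum (fun a => NNReal.coe_le_coe.2 (d_le hw f g _))
      ((summable_nat_add_iff N).2 hds') ((summable_nat_add_iff N).2 hes.summable)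
  have h6 : pr w N g = ∑ a ∈ Finset.range N, (e w g a : ℝ) := rfl
  constructor <;> linarith

theorem d_congr {f g f' g' : EndN} {N : ℕ} (hf : ∀ a < N, f'.1 a = f.1 a)
    (hg : ∀ a < N, g'.1 a = g.1 a) {a : ℕ} (ha : a < N) : d w f' g' a = d w f g a := by
  have key : ∀ g g' : EndN, (∀ a < N, g'.1 a = g.1 a) → a ∈ range g'.1 → a ∈ range g.1 := by
    rintro g g' h ⟨b, hb⟩
    have hle : b ≤ a := by rw [← hb]; exact (sm g').le_apply
    exact ⟨b, by rw [← h b (lt_of_le_of_lt hle ha), hb]⟩
  have : a ∈ range g'.1 ↔ a ∈ range g.1 := ⟨key g g' hg, key g' g fun a ha => (hg a ha).symm⟩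
  by_cases h1 : a ∈ range g'.1
  · rw [d, d, if_pos h1, if_pos (this.1 h1)]
  · rw [d, d, if_neg h1, if_neg (fun h2 => h1 (this.2 h2)), hf a ha]

/-- `End(ℕ, <)` with the topology `T w` -/
def ET (_ : ℕ → NNReal) : Type := EndN

noncomputable instance ETtop : TopologicalSpace (ET w) := T w

/-- the identity map from `ET w` to `EndN` -/
def toE (f : ET w) : EndN := f

theorem cont_toE : Continuous (toE : ET w → EndN) := by
  rw [continuous_iff_le_induced]
  intro s hs
  obtain ⟨V, hV, rfl⟩ := hs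
  exact (inf_le_left : T w ≤ τ0) V hV

theorem cont_v : Continuous (fun f : ET w => v w (toE f)) := by
  rw [continuous_iff_le_induced]
  exact inf_le_right

theorem cont_to_ET {X : Type*} [TopologicalSpace X] {φ : X → ET w}
    (h1 : Continuous fun x => toE (φ x)) (h2 : Continuous fun x => v w (toE (φ x))) :
    Continuous φ := by
  have h3 : @Continuous X EndN _ (TopologicalSpace.induced (v w) inferInstance) φ :=
    continuous_induced_rng.2 h2
  have h4 : @Continuous X EndN _ τ0 φ := h1
  have h5 : @Continuous X EndN _ (T w) φ := continuous_inf_rng.2 ⟨h4, h3⟩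
  exact h5

theorem cont_mul_ET (hw : Antitone w)
    (hD : ∀ f : EndN, μ w f ≠ ⊤ → ∃ c : NNReal, c ≠ 0 ∧ ∀ a, c * w a ≤ w (f.1 a)) :
    Continuous (fun p : ET w × ET w => (show ET w from toE p.1 * toE p.2)) := by
  have hfst0 : Continuous (fun p : ET w × ET w => toE p.1) := cont_toE.comp continuous_fst
  have hsnd0 : Continuous (fun p : ET w × ET w => toE p.2) := cont_toE.comp continuous_snd
  have hv1 : Continuous (fun p : ET w × ET w => v w (toE p.1)) := cont_v.comp continuous_fst
  have hv2 : Continuous (fun p : ET w × ET w => v w (toE p.2)) := cont_v.comp continuous_snd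
  refine cont_to_ET ?_ ?_
  · have h := cont_mul0.comp (hfst0.prodMk hsnd0)
    exact h
  · change Continuous (fun p : ET w × ET w => v w (toE p.1 * toE p.2))
    refine continuous_iff_continuousAt.2 fun p => ?_
    obtain ⟨f, g⟩ := p
    have hv1' := hv1.continuousAt (x := ((f, g) : ET w × ET w))
    have hv2' := hv2.continuousAt (x := ((f, g) : ET w × ET w))
    by_cases hf : μ w (toE f) = ⊤
    · have h1 : ∀ᶠ p : ET w × ET w in 𝓝 (f, g), v w (toE p.1) < -1 / 2 := by
        refine hv1'.eventually_lt_const ?_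
        dsimp only; rw [v_top hf]; norm_num
      refine tendsto_nhds_of_eventually_eq ?_
      filter_upwards [h1] with p hp
      have hp' : μ w (toE p.1) = ⊤ := by
        by_contra hne
        have := v_nonneg hne
        linarith
      rw [v_top, v_top]
      · rw [μ_mul, hf, top_add]
      · rw [μ_mul, hp', top_add]
    · have h1 : ∀ᶠ p : ET w × ET w in 𝓝 (f, g), -1 / 2 < v w (toE p.1) := by
        refine hv1'.eventually_const_lt ?_
        have := v_nonneg hf
        dsimp only; linarith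
      have h1' : ∀ᶠ p : ET w × ET w in 𝓝 (f, g), μ w (toE p.1) ≠ ⊤ := by
        filter_upwards [h1] with p hp ht
        rw [v_top ht] at hp
        norm_num at hp
      by_cases hg : μ w (toE g) = ⊤
      · have h2 : ∀ᶠ p : ET w × ET w in 𝓝 (f, g), v w (toE p.2) < -1 / 2 := by
          refine hv2'.eventually_lt_const ?_
          dsimp only; rw [v_top hg]; norm_num
        have key : ∀ f g : EndN, μ w f ≠ ⊤ → μ w g = ⊤ → μ w (f * g) = ⊤ := by
          intro f g hf hg
          obtain ⟨c, hc, hcw⟩ := hD f hf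
          rw [μ_mul]
          have h3 : (c : ENNReal) * μ w g ≤ ∑' a, (d w f g a : ENNReal) := by
            unfold μ
            rw [← ENNReal.tsum_mul_left]
            refine ENNReal.tsum_le_tsum fun a => ?_
            rw [← ENNReal.coe_mul]
            refine ENNReal.coe_le_coe.2 ?_
            unfold d e
            split_ifs
            · rw [mul_zero]
            · exact hcw a
          rw [hg, ENNReal.mul_top (by simpa using hc)] at h3
          rw [top_le_iff.1 h3, add_top]
        refine tendsto_nhds_of_eventually_eq ?_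
        filter_upwards [h1', h2] with p hp1 hp2
        have hp' : μ w (toE p.2) = ⊤ := by
          by_contra hne
          have := v_nonneg hne
          linarith
        rw [v_top (key _ _ hp1 hp'), v_top (key _ _ hf hg)]
      · have h2 : ∀ᶠ p : ET w × ET w in 𝓝 (f, g), -1 / 2 < v w (toE p.2) := by
          refine hv2'.eventually_const_lt ?_
          have := v_nonneg hg
          dsimp only; linarith
        have h2' : ∀ᶠ p : ET w × ET w in 𝓝 (f, g), μ w (toE p.2) ≠ ⊤ := by
          filter_upwards [h2] with p hp ht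
          rw [v_top ht] at hp
          norm_num at hp
        rw [ContinuousAt, Metric.tendsto_nhds]
        intro ε hε
        obtain ⟨N, hN⟩ := ((pr_tendsto hg).eventually
          (eventually_gt_nhds (show v w (toE g) - ε / 4 < v w (toE g) by linarith))).exists
        have ha1 : ∀ᶠ p : ET w × ET w in 𝓝 (f, g), ∀ a < N, (toE p.1).1 a = (toE f).1 a :=
          ((agree_open (toE f) N).preimage hfst0).mem_nhds fun _ _ => rfl
        have ha2 : ∀ᶠ p : ET w × ET w in 𝓝 (f, g), ∀ a < N, (toE p.2).1 a = (toE g).1 a :=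
          ((agree_open (toE g) N).preimage hsnd0).mem_nhds fun _ _ => rfl
        have hb1 := (Metric.tendsto_nhds.1 hv1') (ε / 4) (by linarith)
        have hb2 := (Metric.tendsto_nhds.1 hv2') (ε / 4) (by linarith)
        filter_upwards [h1', h2', ha1, ha2, hb1, hb2] with p hp1 hp2 hq1 hq2 hr1 hr2
        obtain ⟨l1, l2⟩ := v_mul_bounds hw hf hg N
        obtain ⟨l3, l4⟩ := v_mul_bounds hw hp1 hp2 N
        have hs : ∑ a ∈ Finset.range N, (d w (toE p.1) (toE p.2) a : ℝ) =
            ∑ a ∈ Finset.range N, (d w (toE f) (toE g) a : ℝ) :=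
          Finset.sum_congr rfl fun a ha => by rw [d_congr hq1 hq2 (Finset.mem_range.1 ha)]
        have hpr : pr w N (toE p.2) = pr w N (toE g) := pr_congr hq2
        rw [Real.dist_eq, abs_lt] at hr1 hr2
        rw [hs] at l3 l4
        rw [hpr] at l4
        rw [Real.dist_eq, abs_lt]
        constructor <;> linarith [hr1.1, hr1.2, hr2.1, hr2.2]

theorem cont_mul_T (hw : Antitone w)
    (hD : ∀ f : EndN, μ w f ≠ ⊤ → ∃ c : NNReal, c ≠ 0 ∧ ∀ a, c * w a ≤ w (f.1 a)) :
    @Continuous (EndN × EndN) EndN (@instTopologicalSpaceProd EndN EndN (T w) (T w)) (T w)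
      (fun p => p.1 * p.2) := cont_mul_ET hw hD

end Weight

/-! ### the weights `(n + 1) ^ (-t)` -/

/-- the weight `(n + 1) ^ (-t)` -/
noncomputable def wt (t : ℝ) (n : ℕ) : NNReal := ((n : NNReal) + 1) ^ (-t)

theorem wt_coe (t : ℝ) (n : ℕ) : (wt t n : ℝ) = ((n : ℝ) + 1) ^ (-t) := by
  simp [wt]

theorem wt_anti {t : ℝ} (ht : 0 < t) : Antitone (wt t) := by
  intro a b hab
  rw [← NNReal.coe_le_coe, wt_coe, wt_coe]
  have h : (a : ℝ) ≤ b := by exact_mod_cast hab
  exact Real.rpow_le_rpow_of_nonpos (by positivity) (by linarith) (by linarith)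

theorem count_bound {w : ℕ → NNReal} (hw : Antitone w) {f : EndN} (hf : μ w f ≠ ⊤) (a : ℕ) :
    ((f.1 a : ℝ) - a) * w (f.1 a) ≤ v w f := by
  classical
  refine le_trans ?_ (pr_le hf (f.1 a))
  unfold pr
  let Z : Finset ℕ := Finset.range (f.1 a) \ (Finset.range a).image f.1
  have hsub : (Finset.range a).image f.1 ⊆ Finset.range (f.1 a) := by
    intro n hn
    obtain ⟨b, hb, rfl⟩ := Finset.mem_image.1 hn
    exact Finset.mem_range.2 (f.2 _ _ (Finset.mem_range.1 hb))
  have hcard : Z.card = f.1 a - a := by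
    rw [Finset.card_sdiff_of_subset hsub, Finset.card_image_of_injective _ (sm f).injective,
      Finset.card_range, Finset.card_range]
  have hle : a ≤ f.1 a := (sm f).le_apply
  have h1 : ∀ n ∈ Z, (w (f.1 a) : ℝ) ≤ e w f n := by
    intro n hn
    obtain ⟨hn1, hn2⟩ := Finset.mem_sdiff.1 hn
    have hlt := Finset.mem_range.1 hn1
    have hnr : n ∉ range f.1 := by
      rintro ⟨b, rfl⟩
      exact hn2 (Finset.mem_image.2 ⟨b, Finset.mem_range.2 ((sm f).lt_iff_lt.1 hlt), rfl⟩)
    rw [e, if_neg hnr]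
    exact NNReal.coe_le_coe.2 (hw hlt.le)
  calc ((f.1 a : ℝ) - a) * w (f.1 a) = ∑ _n ∈ Z, (w (f.1 a) : ℝ) := by
        rw [Finset.sum_const, hcard, nsmul_eq_mul, Nat.cast_sub hle]
    _ ≤ ∑ n ∈ Z, (e w f n : ℝ) := Finset.sum_le_sum h1
    _ ≤ ∑ n ∈ Finset.range (f.1 a), (e w f n : ℝ) :=
        Finset.sum_le_sum_of_subset_of_nonneg Finset.sdiff_subset
          fun _ _ _ => NNReal.coe_nonneg _

theorem wt_D {t : ℝ} (ht : 0 < t) (ht2 : t ≤ 1 / 2) (f : EndN) (hf : μ (wt t) f ≠ ⊤) :
    ∃ c : NNReal, c ≠ 0 ∧ ∀ a, c * wt t a ≤ wt t (f.1 a) := by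
  set M : ℝ := v (wt t) f with hM
  have hM0 : 0 ≤ M := v_nonneg hf
  have hK : (0 : ℝ) < 2 + M ^ 2 := by positivity
  refine ⟨Real.toNNReal ((2 + M ^ 2) ^ (-t)), ?_, fun a => ?_⟩
  · have h3 : (0 : ℝ) < (2 + M ^ 2) ^ (-t) := by positivity
    exact (Real.toNNReal_pos.2 h3).ne'
  · rw [← NNReal.coe_le_coe, NNReal.coe_mul, wt_coe, wt_coe, Real.coe_toNNReal _ (by positivity)]
    have h1 := count_bound (wt_anti ht) hf a
    rw [wt_coe] at h1
    set x : ℝ := (f.1 a : ℝ) + 1 with hx
    have hx1 : 1 ≤ x := by rw [hx]; linarith [Nat.cast_nonneg (α := ℝ) (f.1 a)]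
    have hy1 : (1 : ℝ) ≤ (a : ℝ) + 1 := by linarith [Nat.cast_nonneg (α := ℝ) a]
    have hx0 : 0 < x := by linarith
    have h2 : x ^ (-t) * x ^ t = 1 := by
      rw [← Real.rpow_add hx0]; simp
    have h3 : x ^ t ≤ Real.sqrt x := by
      rw [Real.sqrt_eq_rpow]
      exact Real.rpow_le_rpow_of_exponent_le hx1 ht2
    have h4 : (f.1 a : ℝ) - a ≤ M * x ^ t := by
      have h5 : 0 ≤ x ^ t := by positivity
      calc (f.1 a : ℝ) - a = ((f.1 a : ℝ) - a) * x ^ (-t) * x ^ t := by
            rw [mul_assoc, h2, mul_one]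
        _ ≤ M * x ^ t := mul_le_mul_of_nonneg_right h1 h5
    have h5 : (f.1 a : ℝ) - a ≤ M * Real.sqrt x :=
      h4.trans (mul_le_mul_of_nonneg_left h3 hM0)
    have h6 : Real.sqrt x ^ 2 = x := Real.sq_sqrt hx0.le
    have h7 : M * Real.sqrt x ≤ x / 2 + M ^ 2 / 2 := by
      nlinarith [sq_nonneg (M - Real.sqrt x)]
    have h8 : x ≤ (2 + M ^ 2) * ((a : ℝ) + 1) := by
      have : (f.1 a : ℝ) - a = x - ((a : ℝ) + 1) := by rw [hx]; ring
      nlinarith [sq_nonneg M]
    rw [← Real.mul_rpow hK.le (by linarith)]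
    exact Real.rpow_le_rpow_of_nonpos hx0 h8 (by linarith)

theorem isPST {t : ℝ} (ht : 0 < t) (ht2 : t ≤ 1 / 2) :
    IsPolishSemigroupTopology (T (wt t)) :=
  ⟨polish_T, cont_mul_T (wt_anti ht) (wt_D ht ht2)⟩

/-! ### the test points -/

/-- the numbers omitted by the test point -/
noncomputable def aa (t : ℝ) (k : ℕ) : ℕ := 2 * ⌊((k : ℝ) + 1) ^ (1 / t)⌋₊

theorem aa_inj {t : ℝ} (ht : 0 < t) (ht2 : t ≤ 1 / 2) : Function.Injective (aa t) := by
  have hp : 1 ≤ 1 / t := by
    rw [le_div_iff₀ ht]; linarith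
  have h : StrictMono (aa t) := by
    refine strictMono_nat_of_lt_succ fun k => ?_
    unfold aa
    have h1 : ((k : ℝ) + 1) ^ (1 / t) + 1 ≤ (((k + 1 : ℕ) : ℝ) + 1) ^ (1 / t) := by
      have h2 := Real.add_rpow_le_rpow_add (p := 1 / t) (a := (k : ℝ) + 1) (b := 1)
        (by positivity) (by norm_num) hp
      rw [Real.one_rpow] at h2
      push_cast
      exact h2
    have h3 : ⌊((k : ℝ) + 1) ^ (1 / t)⌋₊ + 1 ≤ ⌊(((k + 1 : ℕ) : ℝ) + 1) ^ (1 / t)⌋₊ := by
      rw [← Nat.floor_add_one (by positivity)]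
      exact Nat.floor_le_floor h1
    omega
  exact h.injective

theorem compl_infinite (t : ℝ) : Infinite ((range (aa t))ᶜ : Set ℕ) := by
  rw [Set.infinite_coe_iff]
  refine Set.infinite_of_injective_forall_mem (f := fun n : ℕ => 2 * n + 1) ?_ ?_
  · intro a b h
    dsimp only at h
    omega
  · rintro n ⟨k, hk⟩
    unfold aa at hk
    omega

open Classical in
/-- the test point: it omits exactly the numbers `aa t k` -/
noncomputable def xx (t : ℝ) : EndN :=
  have := compl_infinite t
  ⟨Nat.orderEmbeddingOfSet (range (aa t))ᶜ, fun _ _ h => (OrderEmbedding.strictMono _) h⟩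

theorem range_xx (t : ℝ) : range (xx t).1 = (range (aa t))ᶜ := by
  have := compl_infinite t
  classical
  have h := Nat.orderEmbeddingOfSet_range (range (aa t))ᶜ
  rw [← h]
  unfold xx
  congr!

theorem μ_xx {t : ℝ} (ht : 0 < t) (ht2 : t ≤ 1 / 2) (s : ℝ) :
    μ (wt s) (xx t) = ∑' k, (wt s (aa t k) : ENNReal) := by
  unfold μ
  rw [← (aa_inj ht ht2).tsum_eq]
  · refine tsum_congr fun k => ?_
    have : aa t k ∉ range (xx t).1 := by
      rw [range_xx]
      exact fun h => h ⟨k, rfl⟩
    simp only [e, if_neg this]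
  · intro n hn
    by_contra hc
    apply hn
    have : n ∈ range (xx t).1 := by
      rw [range_xx]; exact hc
    simp only [e, if_pos this, ENNReal.coe_zero]

theorem xx_top {s t : ℝ} (hs : 0 < s) (ht : 0 < t) (ht2 : t ≤ 1 / 2) (hst : s ≤ t) :
    μ (wt s) (xx t) = ⊤ := by
  rw [μ_xx ht ht2]
  by_contra hne
  have h1 : Summable (fun k => wt s (aa t k)) := ENNReal.tsum_coe_ne_top_iff_summable.1 hne
  have h2 : Summable (fun k => (wt s (aa t k) : ℝ)) := NNReal.summable_coe.2 h1
  have h3 : ∀ k : ℕ, (3 : ℝ) ^ (-s) * (((k : ℝ) + 1)⁻¹) ≤ (wt s (aa t k) : ℝ) := by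
    intro k
    rw [wt_coe]
    have hk1 : (1 : ℝ) ≤ (k : ℝ) + 1 := by linarith [Nat.cast_nonneg (α := ℝ) k]
    have hk0 : (0 : ℝ) < (k : ℝ) + 1 := by linarith
    set y : ℝ := ((k : ℝ) + 1) ^ (1 / t) with hy
    have hy1 : 1 ≤ y := Real.one_le_rpow hk1 (by positivity)
    have hfl : (⌊y⌋₊ : ℝ) ≤ y := Nat.floor_le (by linarith)
    have h4 : (aa t k : ℝ) + 1 ≤ 3 * y := by
      unfold aa
      push_cast
      linarith
    have h5 : (3 * y) ^ (-s) ≤ ((aa t k : ℝ) + 1) ^ (-s) :=
      Real.rpow_le_rpow_of_nonpos (by positivity) h4 (by linarith)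
    refine le_trans ?_ h5
    rw [Real.mul_rpow (by norm_num) (by linarith)]
    refine mul_le_mul_of_nonneg_left ?_ (by positivity)
    rw [hy, ← Real.rpow_mul hk0.le, ← Real.rpow_neg_one]
    refine Real.rpow_le_rpow_of_exponent_le hk1 ?_
    rw [mul_neg, neg_le_neg_iff, one_div, inv_mul_le_iff₀ ht]
    linarith
  have h4 : Summable (fun k : ℕ => (3 : ℝ) ^ (-s) * (((k : ℝ) + 1)⁻¹)) :=
    Summable.of_nonneg_of_le (fun k => by positivity) h3 h2
  have h5 : (3 : ℝ) ^ (-s) ≠ 0 := by positivity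
  rw [summable_mul_left_iff h5] at h4
  have h6 : Summable (fun k : ℕ => ((k : ℝ))⁻¹) := by
    rw [← summable_nat_add_iff 1]
    refine h4.congr fun k => ?_
    push_cast
    rfl
  exact Real.not_summable_natCast_inv h6

theorem xx_fin {s t : ℝ} (hs : 0 < s) (ht : 0 < t) (ht2 : t ≤ 1 / 2) (hst : t < s) :
    μ (wt s) (xx t) ≠ ⊤ := by
  rw [μ_xx ht ht2]
  refine ENNReal.tsum_coe_ne_top_iff_summable.2 (NNReal.summable_coe.1 ?_)
  have hp : 1 < s / t := by rw [lt_div_iff₀ ht]; linarith
  have h1 : Summable (fun k : ℕ => ((k : ℝ) + 1) ^ (-(s / t))) := by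
    have := (Real.summable_nat_rpow (p := -(s / t))).2 (by linarith)
    rw [← summable_nat_add_iff 1] at this
    refine this.congr fun k => ?_
    push_cast
    rfl
  refine Summable.of_nonneg_of_le (fun k => NNReal.coe_nonneg _) (fun k => ?_) h1
  rw [wt_coe]
  have hk1 : (1 : ℝ) ≤ (k : ℝ) + 1 := by linarith [Nat.cast_nonneg (α := ℝ) k]
  have hk0 : (0 : ℝ) < (k : ℝ) + 1 := by linarith
  set y : ℝ := ((k : ℝ) + 1) ^ (1 / t) with hy
  have hy1 : 1 ≤ y := Real.one_le_rpow hk1 (by positivity)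
  have hfl : y < (⌊y⌋₊ : ℝ) + 1 := Nat.lt_floor_add_one y
  have h4 : y ≤ (aa t k : ℝ) + 1 := by
    unfold aa
    push_cast
    linarith [Nat.cast_nonneg (α := ℝ) ⌊y⌋₊]
  have h5 : ((aa t k : ℝ) + 1) ^ (-s) ≤ y ^ (-s) :=
    Real.rpow_le_rpow_of_nonpos (by linarith) h4 (by linarith)
  refine h5.trans (le_of_eq ?_)
  rw [hy, ← Real.rpow_mul hk0.le]
  congr 1
  field_simp

/-- `End(ℕ, <)` has no finest Polish semigroup topology: there is no Polish semigroup topology `τ`
such that all open sets of all Polish semigroup topologies `τ'` are open for `τ`. -/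
theorem result :
    ¬ ∃ τ : TopologicalSpace EndN, IsPolishSemigroupTopology τ ∧
      ∀ τ' : TopologicalSpace EndN, IsPolishSemigroupTopology τ' →
        ∀ U : Set EndN, IsOpen[τ'] U → IsOpen[τ] U := by
  rintro ⟨τ, ⟨hP, _⟩, hfin⟩
  have hsc : @SecondCountableTopology EndN τ := @PolishSpace.toSecondCountableTopology EndN τ hP
  obtain ⟨b, hbc, _, hb⟩ := @TopologicalSpace.exists_countable_basis EndN τ hsc
  let I : Set ℝ := Ioc 0 (1 / 2)
  have hopen : ∀ t ∈ I, IsOpen[τ] {f : EndN | μ (wt t) f = ⊤} := by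
    intro t ht
    refine hfin (T (wt t)) (isPST ht.1 ht.2) _ ?_
    have h1 : {f : EndN | μ (wt t) f = ⊤} = v (wt t) ⁻¹' Iio (-1 / 2) := by
      ext f
      simp only [mem_ofPred_eq, mem_preimage, mem_Iio]
      constructor
      · intro h; rw [v_top h]; norm_num
      · intro h
        by_contra hne
        have := v_nonneg hne
        linarith
    rw [h1]
    have h2 : IsOpen[TopologicalSpace.induced (v (wt t)) inferInstance]
      (v (wt t) ⁻¹' Iio (-1 / 2)) := ⟨_, isOpen_Iio, rfl⟩
    exact (inf_le_right : T (wt t) ≤ _) _ h2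
  have hB : ∀ t : I, ∃ B ∈ b, xx t.1 ∈ B ∧ B ⊆ {f : EndN | μ (wt t.1) f = ⊤} := by
    intro t
    exact (@TopologicalSpace.IsTopologicalBasis.mem_nhds_iff EndN τ _ _ _ hb).1
      ((hopen t.1 t.2).mem_nhds (xx_top t.2.1 t.2.1 t.2.2 le_rfl))
  choose B hBb hxB hBsub using hB
  have hinj : Function.Injective (fun t : I => (⟨B t, hBb t⟩ : b)) := by
    intro s t hst
    have hst' : B s = B t := congrArg Subtype.val hst
    have key : ∀ s t : I, B s = B t → s.1 ≤ t.1 := by
      intro s t h
      by_contra hlt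
      have h1 : xx t.1 ∈ B s := by rw [h]; exact hxB t
      exact xx_fin s.2.1 t.2.1 t.2.2 (not_le.1 hlt) (hBsub s h1)
    exact Subtype.ext (le_antisymm (key s t hst') (key t s hst'.symm))
  have hcb : Countable b := hbc.to_subtype
  have hcI : Countable I := hinj.countable
  have hcI' : I.Countable := Set.countable_coe_iff.1 hcI
  rw [← Cardinal.le_aleph0_iff_set_countable, Cardinal.mk_Ioc_real (by norm_num)] at hcI'
  exact absurd hcI' (not_le.2 Cardinal.aleph0_lt_continuum)

end Pool.Agent.Results.MP_0c7c8f_al.NoFinestTopology
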